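import Mathlib
import Pool.Agent.Lib.P0c8ca5.WtEquiv

/-!
# Navarro's blockwise conjecture for blocks with fewer than `p` irreducible Brauer characters

`G` is a normal subgroup of the finite group `Γ`, with `Γ / G` a `p`-group, and `e` is the block
idempotent of a `Γ`-invariant block `B` of `G` with fewer than `p` irreducible Brauer characters.
The blockwise Alperin weight conjecture holds for `B` if and only if Navarro's equality holds for
all `(N, H, b)` with `G ≤ N ⊴ H ≤ Γ` and `b` the block of `N` covering `B`; these include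
`(G, Γ, B)`, and the blockwise Alperin weight conjecture for all the blocks `b`.
-/

namespace Pool.Agent.Results.MP_0c8ca5_al.FewBrauerCharacters

open Pool.Agent.Lib.P0c8ca5

theorem result {p : ℕ} [Fact p.Prime] {k : Type*} [Field k] [IsAlgClosed k] [CharP k p]
    {Γ : Type*} [Group Γ] [Finite Γ] (G : Subgroup Γ) [G.Normal] (hΓ : IsPGroup p (Γ ⧸ G))
    (e : MonoidAlgebra k Γ) (he : IsBlock G e)
    (hinv : ∀ g x : Γ, e.coeff (g * x * g⁻¹) = e.coeff x)
    (hfew : Nat.card (Quotient (irrInvSetoid G ⊥ e)) < p) :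
    NavarroEq p G G e ↔
      ∀ N H : Subgroup Γ, G ≤ N → N ≤ H → (∀ h ∈ H, ∀ n ∈ N, h * n * h⁻¹ ∈ N) →
        ∀ b : MonoidAlgebra k Γ, IsBlock N b → b * e ≠ 0 → NavarroEq p N H b := by
  have : Fintype Γ := Fintype.ofFinite Γ
  have hinv' : InvBy ⊤ e := fun g _ x => hinv g x
  have hp' : ∀ x : Γ, ∃ n : ℕ, x ^ p ^ n ∈ G := by
    intro x
    obtain ⟨n, hn⟩ := hΓ (QuotientGroup.mk x)
    refine ⟨n, ?_⟩
    rwa [← QuotientGroup.mk_pow, QuotientGroup.eq_one_iff] at hn
  constructor
  · intro hawc N H hGN hNH hn b hb hbe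
    have hbe' : b = e := by
      rcases hb.eq_or_mul_eq_zero (isBlock_up hGN hp' he hinv') with h | h
      · exact h
      · exact absurd h hbe
    rw [hbe']
    apply small_blocks hΓ he hinv' hfew hawc N H hGN hNH
    intro h hh
    rw [Subgroup.mem_normalizer_iff]
    intro x
    refine ⟨hn h hh x, fun hx => ?_⟩
    have := hn h⁻¹ (H.inv_mem hh) _ hx
    have e1 : h⁻¹ * (h * x * h⁻¹) * h⁻¹⁻¹ = x := by group
    rwa [e1] at this
  · intro h
    refine h G G (le_refl G) (le_refl G) ?_ e he (by rw [he.idem]; exact he.ne_zero)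
    intro h _ n hn
    exact Subgroup.Normal.conj_mem inferInstance n hn h

end Pool.Agent.Results.MP_0c8ca5_al.FewBrauerCharacters
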