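import Mathlib
import Pool.Agent.Lib.P0c8ca5.MainB

/-!
# The local side of Navarro's equality counts invariant classes of weights

`G` is a normal subgroup of the finite group `Γ`, with `Γ / G` a `p`-group, `e` is the block
idempotent of a `Γ`-invariant block `B` of `G`, `G ≤ N ⊴ H ≤ Γ`, and `b` is the block of `N` that
covers `B`.  Then the local side of Navarro's equality for `(N, H, b)` is the number of
`H`-invariant `N`-classes of `B`-weights of `G`.
-/

namespace Pool.Agent.Results.MP_0c8ca5_al.InvariantWeights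

open Pool.Agent.Lib.P0c8ca5

theorem result {p : ℕ} [Fact p.Prime] {k : Type*} [Field k] [IsAlgClosed k] [CharP k p]
    {Γ : Type*} [Group Γ] [Finite Γ] (G : Subgroup Γ) [G.Normal] (hΓ : IsPGroup p (Γ ⧸ G))
    (e : MonoidAlgebra k Γ) (he : IsBlock G e)
    (hinv : ∀ g x : Γ, e.coeff (g * x * g⁻¹) = e.coeff x)
    (N H : Subgroup Γ) (hGN : G ≤ N) (hNH : N ≤ H)
    (hn : ∀ h ∈ H, ∀ n ∈ N, h * n * h⁻¹ ∈ N)
    (b : MonoidAlgebra k Γ) (hb : IsBlock N b) (hbe : b * e ≠ 0)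
    (T : Finset (Subgroup Γ)) (hT : ↑T ⊆ Theta p N H b)
    (hT' : ∀ Q ∈ Theta p N H b, ∃! Q', Q' ∈ T ∧ ∃ h ∈ H,
      Q' = Q.map (MulAut.conj h).toMonoidHom) :
    ∑ Q ∈ T, Nat.card (DZ p H b Q) = Nat.card (invClasses p G e N H) := by
  have : Fintype Γ := Fintype.ofFinite Γ
  have hinv' : InvBy ⊤ e := fun g _ x => hinv g x
  have hp' : ∀ x : Γ, ∃ n : ℕ, x ^ p ^ n ∈ G := by
    intro x
    obtain ⟨n, hn⟩ := hΓ (QuotientGroup.mk x)
    refine ⟨n, ?_⟩
    rwa [← QuotientGroup.mk_pow, QuotientGroup.eq_one_iff] at hn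
  have hbe' : b = e := by
    rcases hb.eq_or_mul_eq_zero (isBlock_up hGN hp' he hinv') with h | h
    · exact h
    · exact absurd h hbe
  subst hbe'
  have hn' : H ≤ Subgroup.normalizer (N : Set Γ) := by
    intro h hh
    rw [Subgroup.mem_normalizer_iff]
    intro x
    refine ⟨hn h hh x, fun hx => ?_⟩
    have := hn h⁻¹ (H.inv_mem hh) _ hx
    have e1 : h⁻¹ * (h * x * h⁻¹) * h⁻¹⁻¹ = x := by group
    rwa [e1] at this
  have : Fintype (PT p G b) := Fintype.ofFinite _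
  have h1 := cnt_stP_trans hGN hNH hn' hp' he hinv' T hT hT'
  rw [cnt_weights hNH hn' he hinv'] at h1
  exact (Nat.eq_of_mul_eq_mul_left Nat.card_pos h1).symm

end Pool.Agent.Results.MP_0c8ca5_al.InvariantWeights
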