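import Mathlib
import Pool.Agent.Lib.P0c8ca5.MainB

/-!
# Navarro's blockwise conjecture: reduction to the weight conjecture and to rank two

`G` is a normal subgroup of the finite group `Γ`, with `Γ / G` a `p`-group, and `e` is the block
idempotent of a `Γ`-invariant block `B` of `G`.  If Navarro's equality fails for `(G, Γ, B)`, then
it fails for `(N, H, b)`, where `N ≤ H` are subgroups of `Γ` containing the preimage `Φ` of the
Frattini subgroup of `Γ / G`, where `b` is the block of `N` that covers `B`, and where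
either `N = H` (so `b` is a counterexample to the blockwise Alperin weight conjecture), or
`|H : N| = p ^ 2`, `C_H(G) ≤ N`, the group `H / N` acts faithfully both on the irreducible Brauer
characters of `b` and on the `N`-classes of `b`-weights, and `b` has at least `p ^ 2 + p`
irreducible Brauer characters.
-/

namespace Pool.Agent.Results.MP_0c8ca5_al.RankTwoReduction

open Pool.Agent.Lib.P0c8ca5

theorem result {p : ℕ} [Fact p.Prime] {k : Type*} [Field k] [IsAlgClosed k] [CharP k p]
    {Γ : Type*} [Group Γ] [Finite Γ] (G : Subgroup Γ) [G.Normal] (hΓ : IsPGroup p (Γ ⧸ G))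
    (e : MonoidAlgebra k Γ) (he : IsBlock G e)
    (hinv : ∀ g x : Γ, e.coeff (g * x * g⁻¹) = e.coeff x)
    (hfail : ¬ NavarroEq p G ⊤ e) :
    ∃ (N H : Subgroup Γ) (b : MonoidAlgebra k Γ),
      (frattini (Γ ⧸ G)).comap (QuotientGroup.mk' G) ≤ N ∧ N ≤ H ∧ N.Normal ∧
      IsBlock N b ∧ (∀ g x : Γ, b.coeff (g * x * g⁻¹) = b.coeff x) ∧ b * e ≠ 0 ∧
      ¬ NavarroEq p N H b ∧
      (N = H ∨
        (N.relIndex H = p ^ 2 ∧ H ⊓ Subgroup.centralizer (G : Set Γ) ≤ N ∧
          (∀ v ∈ H, v ∉ N →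
            (∃ ρ σ : IrrInv N ⊥ b, RConj v ρ σ ∧ ¬ Nonempty (ρ.ρ.Equiv σ.ρ)) ∧
            ∃ w w' : Wt p N b, WConj v w w' ∧ ¬ WSame N w w') ∧
          p ^ 2 + p ≤ Nat.card (Quotient (irrInvSetoid N ⊥ b)) ∧
          Nat.card (Quotient (irrInvSetoid N ⊥ b)) ≤
            Nat.card (Quotient (irrInvSetoid G ⊥ e)))) := by
  by_contra hcon
  have hinv' : InvBy ⊤ e := fun g _ x => hinv g x
  have hp' : ∀ x : Γ, ∃ n : ℕ, x ^ p ^ n ∈ G := by
    intro x
    obtain ⟨n, hn⟩ := hΓ (QuotientGroup.mk x)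
    refine ⟨n, ?_⟩
    rwa [← QuotientGroup.mk_pow, QuotientGroup.eq_one_iff] at hn
  apply hfail
  apply main_reduction G hΓ he hinv'
  intro N H b hΦN hNH hb hbe hcase
  by_contra hne
  apply hcon
  have hGN : G ≤ N := by
    refine le_trans ?_ hΦN
    intro g hg
    rw [Subgroup.mem_comap]
    have : QuotientGroup.mk' G g = 1 := by
      rw [QuotientGroup.mk'_apply, QuotientGroup.eq_one_iff]; exact hg
    rw [this]; exact Subgroup.one_mem _
  have hbe' : b = e := by
    rcases hb.eq_or_mul_eq_zero (isBlock_up hGN hp' he hinv') with h | h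
    · exact h
    · exact absurd h hbe
  have hNn : N.Normal := by
    constructor
    intro n hn g
    have h1 : g * n * g⁻¹ * n⁻¹ ∈ (frattini (Γ ⧸ G)).comap (QuotientGroup.mk' G) := by
      rw [Subgroup.mem_comap, map_mul, map_mul, map_mul, map_inv, map_inv]
      exact comm_mem_frattini hΓ _ _
    have h2 := N.mul_mem (hΦN h1) hn
    have e1 : g * n * g⁻¹ * n⁻¹ * n = g * n * g⁻¹ := by group
    rwa [e1] at h2
  refine ⟨N, H, b, hΦN, hNH, hNn, hb, ?_, hbe, hne, ?_⟩
  · intro g x
    rw [hbe']; exact hinv g x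
  · rcases hcase with h | ⟨h1, h2, h3, h4⟩
    · exact Or.inl h
    · refine Or.inr ⟨h1, h2, h4, h3, ?_⟩
      rw [hbe']
      exact card_irr_le hGN hp' he.suppIn hinv' he.idem

end Pool.Agent.Results.MP_0c8ca5_al.RankTwoReduction
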